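import Mathlib
import Pool.Agent.Lib_MP_380d39.DerLe
import Pool.Agent.Lib_MP_380d39.AbsZero

set_option autoImplicit false

namespace Pool.Agent.Results.MP_380d39_al.AbsoluteZero

universe u v

open Pool.Agent.Alb

/-- Let `A` be a finite-dimensional commutative algebra over a field of characteristic not 2, 3, 5
in which `(xx)(xx) = x(x(xx))` for all `x` (every commutative power-associative algebra has this
property). Let `c` satisfy `c(yz) + y(cz) + z(cy) = 0` for all `y`, `z`. Then `c` annihilates the
term with index `dim A` of the derived series of `A`. In particular `cA = 0` if `A` is spanned by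
its products. -/
theorem result :
    ∀ (F : Type u) [Field F], ringChar F ≠ 2 → ringChar F ≠ 3 → ringChar F ≠ 5 →
    ∀ (A : Type v) [NonUnitalNonAssocCommRing A] [Module F A]
      [IsScalarTower F A A] [SMulCommClass F A A] [FiniteDimensional F A],
      (∀ x : A, (x * x) * (x * x) = x * (x * (x * x))) →
      ∀ c : A, (∀ y z : A, c * (y * z) + y * (c * z) + z * (c * y) = 0) →
        ∀ D : ℕ → Submodule F A, D 0 = ⊤ →
          (∀ k : ℕ, D (k + 1) =
            Submodule.span F {z : A | ∃ a ∈ D k, ∃ b ∈ D k, z = a * b}) →
          ∀ y ∈ D (Module.finrank F A), c * y = 0 := by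
  intro F _ hF2 hF3 hF5 A _ _ _ _ _ pa c hc D hD0 hD
  have two : (2 : F) ≠ 0 := Ring.two_ne_zero hF2
  have three : (3 : F) ≠ 0 := fun h =>
    hF3 (ringChar_of_zero F 3 Nat.prime_three (by exact_mod_cast h))
  have five : (5 : F) ≠ 0 := fun h =>
    hF5 (ringChar_of_zero F 5 Nat.prime_five (by exact_mod_cast h))
  have comm : ∀ x y : A, LinearMap.mul F A x y = LinearMap.mul F A y x := by
    intro x y
    exact mul_comm x y
  have hDd : ∀ k, D k = der F A k := by
    intro k
    induction k with
    | zero => exact hD0
    | succ k ih =>
      rw [hD, ih]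
      rfl
  have hS : der F A (Module.finrank F A) ≤ LinearMap.ker (LinearMap.mul F A c) := by
    refine der_le two (LinearMap.ker (LinearMap.mul F A c)) ?_ ?_ ?_
    · intro a ha b hb
      rw [LinearMap.mem_ker, LinearMap.mul_apply'] at ha hb ⊢
      have := hc a b
      rw [ha, hb, mul_zero, mul_zero, add_zero, add_zero] at this
      exact this
    · intro x
      rw [LinearMap.mem_ker]
      exact abs_four (m := LinearMap.mul F A) comm two three pa five c hc x
    · intro h0
      exfalso
      have h1 : (2 : F) * 3 = 0 := by linear_combination h0 2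
      exact (mul_ne_zero two three) h1
  intro y hy
  rw [hDd] at hy
  have hy' := hS hy
  rw [LinearMap.mem_ker, LinearMap.mul_apply'] at hy'
  exact hy'

end Pool.Agent.Results.MP_380d39_al.AbsoluteZero
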