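import Mathlib
import Pool.Agent.Lib_MP_380d39.Wrap
import Pool.Agent.Lib_MP_380d39.Words
import Pool.Agent.Lib_MP_380d39.Words2
import Pool.Agent.Lib_MP_380d39.Words3
import Pool.Agent.Lib_MP_380d39.Words5
import Pool.Agent.Lib_MP_380d39.WordS2
import Pool.Agent.Lib_MP_380d39.WordSXX
import Pool.Agent.Lib_MP_380d39.WordL3X
import Pool.Agent.Lib_MP_380d39.WordXXS
import Pool.Agent.Lib_MP_380d39.WordXL3
import Pool.Agent.Lib_MP_380d39.WordE4
import Pool.Agent.Lib_MP_380d39.Word1100
import Pool.Agent.Lib_MP_380d39.Word1140
import Pool.Agent.Lib_MP_380d39.Word1040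
import Pool.Agent.Lib_MP_380d39.Word1020
import Pool.Agent.Lib_MP_380d39.Word0140
import Pool.Agent.Lib_MP_380d39.Word2100
import Pool.Agent.Lib_MP_380d39.Word2015
import Pool.Agent.Lib_MP_380d39.Word2016
import Pool.Agent.Lib_MP_380d39.Word4029

set_option autoImplicit false

namespace Pool.Agent.Results.MP_380d39_al.DegreeFiveWords

universe u v w

open Pool.Agent.Alb

/-- Let `A` be a finite-dimensional commutative algebra over a field of characteristic 0 in which
`(xx)(xx) = x(x(xx))` (every commutative power-associative algebra has this property), and let `w`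
be a nonassociative word of degree 5 in which at least two different letters occur (`s` is the
multiset of its letters). If `w` vanishes for all values of the letters in `A`, then `A` is
solvable: the term with index `dim A` of its derived series is zero. -/
theorem result :
    ∀ (F : Type u) [Field F] [CharZero F]
      (A : Type v) [NonUnitalNonAssocCommRing A] [Module F A]
      [IsScalarTower F A A] [SMulCommClass F A A] [FiniteDimensional F A],
      (∀ x : A, (x * x) * (x * x) = x * (x * (x * x))) →
      ∀ (α : Type w) (w : FreeMagma α) (s : Multiset α),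
        FreeMagma.lift (fun a : α => Multiplicative.ofAdd ({a} : Multiset α)) w =
            Multiplicative.ofAdd s →
        s.card = 5 → (∃ a ∈ s, ∃ b ∈ s, a ≠ b) →
        (∀ v : α → A, FreeMagma.lift v w = 0) →
        ∀ D : ℕ → Submodule F A, D 0 = ⊤ →
          (∀ k : ℕ, D (k + 1) =
            Submodule.span F {z : A | ∃ a ∈ D k, ∃ b ∈ D k, z = a * b}) →
          D (Module.finrank F A) = ⊥ := by
  intro F _ _ A _ _ _ _ _ pa α w s hw hs hab hv D hD0 hD
  have hs' : s = wlet w := by
    unfold wlet
    rw [hw]
    rfl
  subst hs'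
  have hDd : ∀ k, D k = der F A k := by
    intro k
    induction k with
    | zero => exact hD0
    | succ k ih =>
      rw [hD, ih]
      rfl
  rw [hDd]
  refine der_eq_bot_of_perfect ?_
  intro U hU hperf
  have comm : ∀ x y : U, mulOn U hU x y = mulOn U hU y x := by
    intro x y
    ext
    simp only [mulOn_coe]
    exact mul_comm _ _
  have hpa4 : ∀ x : U, mulOn U hU (mulOn U hU x x) (mulOn U hU x x) =
      mulOn U hU x (mulOn U hU x (mulOn U hU x x)) := by
    intro x
    ext
    simp only [mulOn_coe]
    exact pa _
  obtain ⟨p, hp⟩ := two_letters w hs hab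
  have h : ∀ x y : A, wev (FreeMagma.map p w) x y = 0 := fun x y => by
    rw [wev_map]
    exact hv _
  rcases hp with hp | hp
  · rcases w41 pa _ hp with g | g | g | g | g | g | g | g
    · refine e4_subsingleton _ comm hperf hpa4 fun x y => ?_
      ext
      simp only [mulOn_coe, ZeroMemClass.coe_zero]
      rw [← g, h]
    · refine w_XXS _ comm hperf hpa4 fun x y => ?_
      ext
      simp only [mulOn_coe, ZeroMemClass.coe_zero]
      rw [← g, h]
    · refine w_XSX _ comm hperf hpa4 fun x y => ?_
      ext
      simp only [mulOn_coe, ZeroMemClass.coe_zero]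
      rw [← g, h]
    · refine w_XL3 _ comm hperf hpa4 fun x y => ?_
      ext
      simp only [mulOn_coe, ZeroMemClass.coe_zero]
      rw [← g, h]
    · refine w_SXX _ comm hperf hpa4 fun x y => ?_
      ext
      simp only [mulOn_coe, ZeroMemClass.coe_zero]
      rw [← g, h]
    · refine w_SS _ comm hperf hpa4 fun x y => ?_
      ext
      simp only [mulOn_coe, ZeroMemClass.coe_zero]
      rw [← g, h]
    · refine w_L3X _ comm hperf hpa4 fun x y => ?_
      ext
      simp only [mulOn_coe, ZeroMemClass.coe_zero]
      rw [← g, h]
    · refine w_T _ comm hperf hpa4 fun x y => ?_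
      ext
      simp only [mulOn_coe, ZeroMemClass.coe_zero]
      rw [← g, h]
  · obtain ⟨f, hf, g⟩ := w32 (A := A) _ hp
    have g' : ∀ x y : A, f x y = 0 := fun x y => by rw [← g, h]
    simp only [fm32, List.mem_cons, List.not_mem_nil, or_false] at hf
    rcases hf with rfl | rfl | rfl | rfl | rfl | rfl | rfl | rfl | rfl | rfl | rfl | rfl | rfl |
      rfl | rfl
    · refine w_2100 _ comm hperf hpa4 fun x y => ?_
      ext
      simp only [mulOn_coe, ZeroMemClass.coe_zero]
      exact g' _ _
    · refine w_0140 _ comm hperf hpa4 fun x y => ?_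
      ext
      simp only [mulOn_coe, ZeroMemClass.coe_zero]
      exact g' _ _
    · refine w_1020 _ comm hperf hpa4 fun x y => ?_
      ext
      simp only [mulOn_coe, ZeroMemClass.coe_zero]
      exact g' _ _
    · refine w_1040 _ comm hperf hpa4 fun x y => ?_
      ext
      simp only [mulOn_coe, ZeroMemClass.coe_zero]
      exact g' _ _
    · refine w_1140 _ comm hperf hpa4 fun x y => ?_
      ext
      simp only [mulOn_coe, ZeroMemClass.coe_zero]
      exact g' _ _
    · refine w_1100 _ comm hperf hpa4 fun x y => ?_
      ext
      simp only [mulOn_coe, ZeroMemClass.coe_zero]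
      exact g' _ _
    · refine e4_subsingleton _ comm hperf hpa4 (lin32_07 _ comm hpa4 fun x y => ?_)
      ext
      simp only [mulOn_coe, ZeroMemClass.coe_zero]
      exact g' _ _
    · refine w_XSX _ comm hperf hpa4 (lin32_08 _ comm hpa4 fun x y => ?_)
      ext
      simp only [mulOn_coe, ZeroMemClass.coe_zero]
      exact g' _ _
    · refine w_XSX _ comm hperf hpa4 (lin32_09 _ comm hpa4 fun x y => ?_)
      ext
      simp only [mulOn_coe, ZeroMemClass.coe_zero]
      exact g' _ _
    · refine w_XSX _ comm hperf hpa4 (lin32_10 _ comm hpa4 fun x y => ?_)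
      ext
      simp only [mulOn_coe, ZeroMemClass.coe_zero]
      exact g' _ _
    · refine w_SXX _ comm hperf hpa4 (lin32_11 _ comm hpa4 fun x y => ?_)
      ext
      simp only [mulOn_coe, ZeroMemClass.coe_zero]
      exact g' _ _
    · refine w_4029 _ comm hperf hpa4 fun x y => ?_
      ext
      simp only [mulOn_coe, ZeroMemClass.coe_zero]
      exact g' _ _
    · refine w_2015 _ comm hperf hpa4 fun x y => ?_
      ext
      simp only [mulOn_coe, ZeroMemClass.coe_zero]
      exact g' _ _
    · refine w_2016 _ comm hperf hpa4 fun x y => ?_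
      ext
      simp only [mulOn_coe, ZeroMemClass.coe_zero]
      exact g' _ _
    · refine w_L3X _ comm hperf hpa4 (lin32_15 _ comm hpa4 fun x y => ?_)
      ext
      simp only [mulOn_coe, ZeroMemClass.coe_zero]
      exact g' _ _

end Pool.Agent.Results.MP_380d39_al.DegreeFiveWords

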