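import Mathlib
import Pool.Agent.Lib_MP_380d39.DerLe

set_option autoImplicit false

namespace Pool.Agent.Results.MP_380d39_al.FourthPowers

universe u v

open Pool.Agent.Alb

/-- Let `A` be a finite-dimensional commutative (not necessarily associative) algebra over a field
of characteristic not 2. The derived series of `A` enters every subalgebra that contains all
`(xx)(xx)` (and, if `F` is the field with 3 elements, all `(xx)(xy)`) after at most `dim A`
steps. -/
theorem result :
    ∀ (F : Type u) [Field F], ringChar F ≠ 2 →
    ∀ (A : Type v) [NonUnitalNonAssocCommRing A] [Module F A]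
      [IsScalarTower F A A] [SMulCommClass F A A] [FiniteDimensional F A],
      ∀ S : Submodule F A, (∀ a ∈ S, ∀ b ∈ S, a * b ∈ S) →
        (∀ x : A, (x * x) * (x * x) ∈ S) →
        (Nat.card F = 3 → ∀ x y : A, (x * x) * (x * y) ∈ S) →
        ∀ D : ℕ → Submodule F A, D 0 = ⊤ →
          (∀ k : ℕ, D (k + 1) =
            Submodule.span F {z : A | ∃ a ∈ D k, ∃ b ∈ D k, z = a * b}) →
          D (Module.finrank F A) ≤ S := by
  intro F _ hF A _ _ _ _ _ S hS h4 h3 D hD0 hD
  have two : (2 : F) ≠ 0 := Ring.two_ne_zero hF
  have hDd : ∀ k, D k = der F A k := by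
    intro k
    induction k with
    | zero => exact hD0
    | succ k ih =>
      rw [hD, ih]
      rfl
  rw [hDd]
  exact der_le two S hS h4 (fun h0 => h3 (card_of_cube F two h0))

end Pool.Agent.Results.MP_380d39_al.FourthPowers
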