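import Mathlib
import Pool.Agent.Lib_MP_380d39.Derived

set_option autoImplicit false

namespace Pool.Agent.Results.MP_380d39_al.SquaresSquareZero

universe u v

/-- Over a field of characteristic not 2, every finite-dimensional commutative (not necessarily
associative) algebra in which `(xx)(xx) = 0` for every element `x` is solvable: its derived series
reaches zero after at most `dim A` steps. -/
theorem result :
    ∀ (F : Type u) [Field F], ringChar F ≠ 2 →
    ∀ (A : Type v) [NonUnitalNonAssocCommRing A] [Module F A]
      [IsScalarTower F A A] [SMulCommClass F A A] [FiniteDimensional F A],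
      (∀ x : A, (x * x) * (x * x) = 0) →
      ∃ S : ℕ → Submodule F A, S 0 = ⊤ ∧
        (∀ k : ℕ, S (k + 1) =
          Submodule.span F {z : A | ∃ a ∈ S k, ∃ b ∈ S k, z = a * b}) ∧
        ∃ n ≤ Module.finrank F A, S n = ⊥ := by
  intro F _ hF A _ _ _ _ _ sq
  have two : (2 : F) ≠ 0 := Ring.two_ne_zero hF
  exact ⟨Pool.Agent.Alb.der F A, rfl, fun k => rfl, Module.finrank F A, le_rfl,
    Pool.Agent.Alb.der_eq_bot two sq⟩

end Pool.Agent.Results.MP_380d39_al.SquaresSquareZero
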